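import Mathlib

namespace Pool.Agent.Results.MP_4befb3_co.Both

open Classical

/-- The point of the edge `u v` at distance `t` from `u`. -/
structure Pt {V : Type} (G : SimpleGraph V) where
  u : V
  v : V
  t : ℝ
  adj : G.Adj u v
  t0 : 0 ≤ t
  t1 : t ≤ 1

/-- Distance from a point to a vertex. -/
noncomputable def dv {V : Type} {G : SimpleGraph V} (p : Pt G) (x : V) : ℝ :=
  min (p.t + G.dist p.u x) (1 - p.t + G.dist p.v x)

/-- Length of a shortest path through an end vertex of the edge of `q`. -/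
noncomputable def dw {V : Type} {G : SimpleGraph V} (p q : Pt G) : ℝ :=
  min (dv p q.u + q.t) (dv p q.v + (1 - q.t))

/-- The shortest path distance in the continuous graph of a connected graph. -/
noncomputable def d {V : Type} {G : SimpleGraph V} (p q : Pt G) : ℝ :=
  if p.u = q.u ∧ p.v = q.v then min (dw p q) |p.t - q.t|
  else if p.u = q.v ∧ p.v = q.u then min (dw p q) |p.t - (1 - q.t)| else dw p q

def ball {V : Type} {G : SimpleGraph V} (p : Pt G) (r : ℝ) : Set (Pt G) := {q | d p q ≤ r}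

def Colourable {V : Type} (G : SimpleGraph V) (r : ℝ) (c : ℕ) : Prop :=
  ∃ (𝓑 : Set (Set (Pt G))) (f : Set (Pt G) → Fin c), (∀ B ∈ 𝓑, ∃ p, B = ball p r) ∧
    ⋃₀ 𝓑 = Set.univ ∧ ∀ B ∈ 𝓑, ∀ B' ∈ 𝓑, B ≠ B' → (B ∩ B').Nonempty → f B ≠ f B'

noncomputable def chi {V : Type} (G : SimpleGraph V) (r : ℝ) : ℕ := sInf {c | Colourable G r c}

lemma dv_le {V : Type} (p : Pt (⊤ : SimpleGraph V)) (h : p.t < 1 / 2) (x : V) (s : ℝ) (s0 : 0 ≤ s) :
    dv p x + s ≤ 1 / 2 ↔ p.u = x ∧ p.t + s ≤ 1 / 2 := by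
  have h1 : (0 : ℝ) ≤ (⊤ : SimpleGraph V).dist p.v x := by positivity
  have := p.t0
  rw [dv, ← le_sub_iff_add_le, min_le_iff]
  by_cases e : p.u = x
  · simp only [e, SimpleGraph.dist_self, true_and, Nat.cast_zero]
    constructor
    · rintro (h | h) <;> linarith
    · exact fun h => Or.inl (by linarith)
  · simp only [e, SimpleGraph.dist_top_of_ne e, false_and, iff_false, not_or, not_le, Nat.cast_one]
    constructor <;> linarith

lemma mem_iff {V : Type} (p q : Pt (⊤ : SimpleGraph V)) (h : p.t < 1 / 2) : q ∈ ball p (1 / 2) ↔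
    (p.u = q.u ∧ q.t ≤ if p.v = q.v then 1 / 2 + p.t else 1 / 2 - p.t) ∨
    (p.u = q.v ∧ 1 - q.t ≤ if p.v = q.u then 1 / 2 + p.t else 1 / 2 - p.t) := by
  have h1 : dw p q ≤ 1 / 2 ↔ (p.u = q.u ∧ p.t + q.t ≤ 1 / 2) ∨ (p.u = q.v ∧ p.t + (1 - q.t) ≤ 1 / 2) := by
    rw [dw, min_le_iff, dv_le p h _ _ q.t0, dv_le p h _ _ (sub_nonneg.2 q.t1)]
  have := p.t0
  have := q.t0
  have := q.t1
  have := q.adj.ne
  have := p.adj.ne
  simp only [ball, Set.mem_ofPred_eq, d]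
  split_ifs <;> simp only [min_le_iff, h1, abs_le] <;> grind

def F : Fin 5 → Fin 11 → Fin 11 :=
  ![![1, 7, 6, 6, 8, 5, 5, 5, 7, 5, 2], ![9, 2, 5, 8, 4, 4, 8, 9, 10, 4, 4],
    ![8, 6, 3, 7, 4, 3, 10, 4, 5, 3, 7], ![6, 5, 7, 4, 6, 0, 7, 7, 9, 1, 1],
    ![10, 8, 8, 10, 5, 10, 9, 0, 8, 2, 9]]

def A : Fin 5 → Fin 11 → ℤ :=
  ![![0, 1, 2, 1, 1, 0, 3, 3, 2, 1, 1], ![1, 0, 1, 1, 0, 2, 1, 1, 2, 2, 3],
    ![1, 1, 0, 4, 0, 3, 2, 5, 2, 1, 3], ![5, 3, 1, 0, 1, 4, 6, 0, 1, 2, 1],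
    ![2, 1, 5, 1, 0, 1, 1, 1, 0, 4, 3]]

def R (i : Fin 5) (w x : Fin 11) : ℤ := if F i w = x then 12 + A i w else 12 - A i w

lemma hA : ∀ i w, 0 ≤ A i w ∧ A i w < 12 := by decide +kernel

lemma hd : ∀ i w x, w ≠ x → w ≠ F i w → x ≠ F i x → R i w x + R i x w < 24 := by decide +kernel

lemma hc : ∀ u v, u ≠ v → ∃ i j, u ≠ F i u ∧ v ≠ F j v ∧ 24 ≤ R i u v + R j v u := by decide +kernel

noncomputable def cen (x : {x : Fin 5 × Fin 11 // x.2 ≠ F x.1 x.2}) : Pt (⊤ : SimpleGraph (Fin 11)) :=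
  ⟨x.1.2, F x.1.1 x.1.2, A x.1.1 x.1.2 / 24, x.2,
    div_nonneg (by exact_mod_cast (hA _ _).1) (by norm_num), by
      have : (A x.1.1 x.1.2 : ℝ) < 12 := by exact_mod_cast (hA _ _).2
      linarith⟩

lemma mem_cen (x : {x : Fin 5 × Fin 11 // x.2 ≠ F x.1 x.2}) (q : Pt (⊤ : SimpleGraph (Fin 11))) :
    q ∈ ball (cen x) (1 / 2) ↔ (x.1.2 = q.u ∧ 24 * q.t ≤ R x.1.1 x.1.2 q.v) ∨
      (x.1.2 = q.v ∧ 24 * (1 - q.t) ≤ R x.1.1 x.1.2 q.u) := by
  have : (A x.1.1 x.1.2 : ℝ) < 12 := by exact_mod_cast (hA _ _).2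
  rw [mem_iff _ _ (by simp only [cen]; linarith)]
  simp only [cen, R]
  refine or_congr (and_congr_right' ?_) (and_congr_right' ?_) <;> split_ifs <;> push_cast <;>
    constructor <;> intro h <;> linarith

lemma d_le {V : Type} {G : SimpleGraph V} (p q : Pt G) : d p q ≤ dw p q := by
  unfold d
  split_ifs
  exacts [min_le_left _ _, min_le_left _ _, le_rfl]

lemma dv0 {V : Type} {G : SimpleGraph V} (p : Pt G) (x : V) : 0 ≤ dv p x :=
  le_min (add_nonneg p.t0 (by positivity)) (add_nonneg (sub_nonneg.2 p.t1) (by positivity))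

lemma dv_eq {V : Type} (p : Pt (⊤ : SimpleGraph V)) (x y : V) (hx : dv p x = 0) (hy : dv p y = 0) :
    x = y := by
  have h : ∀ x, dv p x = 0 → (p.t = 0 ∧ p.u = x) ∨ (p.t = 1 ∧ p.v = x) := fun x h => by
    have := p.t0
    have := p.t1
    rcases min_le_iff.1 h.le with h | h
    · by_cases e : p.u = x
      · have : (0 : ℝ) ≤ (⊤ : SimpleGraph V).dist p.u x := by positivity
        exact Or.inl ⟨by linarith, e⟩
      · rw [SimpleGraph.dist_top_of_ne e, Nat.cast_one] at h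
        linarith
    · by_cases e : p.v = x
      · have : (0 : ℝ) ≤ (⊤ : SimpleGraph V).dist p.v x := by positivity
        exact Or.inr ⟨by linarith, e⟩
      · rw [SimpleGraph.dist_top_of_ne e, Nat.cast_one] at h
        linarith
  have := h x hx
  have := h y hy
  grind

lemma lower (n c : ℕ) (h : Colourable (⊤ : SimpleGraph (Fin n)) (1 / 2) c) :
    n * n ≤ n + (c * c + n * (c * 2)) := by
  obtain ⟨𝓑, f, h1, h2, h3⟩ := h
  choose p hp using h1
  have key : ∀ B hB B' hB' q, f B = f B' → dw (p B hB) q ≤ 1 / 2 → dw (p B' hB') q ≤ 1 / 2 → B = B' :=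
    fun B hB B' hB' q e a b => by
      by_contra hn
      exact h3 B hB B' hB' hn ⟨q, hp B hB ▸ (d_le _ _).trans a, hp B' hB' ▸ (d_le _ _).trans b⟩ e
  have k2 : ∀ B hB B' hB' w, f B = f B' → dv (p B hB) w ≤ 1 / 2 → dv (p B' hB') w ≤ 1 / 2 → B = B' :=
    fun B hB B' hB' w e a b => by
      have : Nontrivial (Fin n) := ⟨_, _, (p B hB).adj.ne⟩
      obtain ⟨x, hx⟩ := exists_ne w
      exact key B hB B' hB' ⟨w, x, 0, hx.symm, le_rfl, zero_le_one⟩ e
        ((min_le_left _ _).trans (by simpa using a)) ((min_le_left _ _).trans (by simpa using b))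
  have k3 : ∀ B hB B' hB' x y, f B = f B' → dv (p B hB) x = 0 → dv (p B' hB') y = 0 → x = y :=
    fun B hB B' hB' x y e a b => by
      by_contra hn
      obtain rfl := key B hB B' hB' ⟨x, y, 1 / 2, hn, by norm_num, by norm_num⟩ e
        ((min_le_left _ _).trans (by simp [a])) ((min_le_right _ _).trans (by norm_num [b]))
      exact hn (dv_eq _ _ _ a b)
  let Rel : Fin n × Fin n → Fin n ⊕ (Fin c × Fin c) ⊕ (Fin n × Fin c × Bool) → Prop := fun x y =>
    match y with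
    | .inl w => x = (w, w)
    | .inr (.inl (i, j)) => (∃ B hB, f B = i ∧ dv (p B hB) x.1 = 0) ∧ ∃ B hB, f B = j ∧ dv (p B hB) x.2 = 0
    | .inr (.inr (w, j, b)) => ∃ B hB, f B = j ∧ dv (p B hB) w ≤ 1 / 2 ∧
        x = if b then ((p B hB).u, (p B hB).v) else ((p B hB).v, (p B hB).u)
  have on : ∀ u v, u ≠ v → (¬ ∃ B hB, dv (p B hB) u = 0) → ∃ B hB,
      ((p B hB).u = u ∧ (p B hB).v = v) ∨ ((p B hB).u = v ∧ (p B hB).v = u) := fun u v uv hn => by
    have fin : {B : 𝓑 | dv (p B.1 B.2) u ≤ 1 / 2}.Finite :=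
      .of_finite_image (f := fun B => f B.1) (Set.toFinite _) fun B a B' b e =>
        Subtype.ext (k2 _ _ _ _ u e a b)
    have ev : ∀ᶠ ε in nhdsWithin (0 : ℝ) (Set.Ioi 0), ∀ B ∈ {B : 𝓑 | dv (p B.1 B.2) u ≤ 1 / 2},
        ε < dv (p B.1 B.2) u := (Filter.eventually_all_finite fin).2 fun B _ =>
      nhdsWithin_le_nhds (gt_mem_nhds ((dv0 _ _).lt_of_ne' fun e => hn ⟨_, _, e⟩))
    obtain ⟨ε, ⟨e1, e2⟩, e3⟩ := ((ev.and (nhdsWithin_le_nhds
      (gt_mem_nhds (by norm_num : (0 : ℝ) < 1 / 2)))).and self_mem_nhdsWithin).exists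
    have e3 : 0 < ε := e3
    obtain ⟨B, hB, hq⟩ : (⟨u, v, 1 / 2 - ε, uv, by linarith, by linarith⟩ : Pt (⊤ : SimpleGraph (Fin n)))
      ∈ ⋃₀ 𝓑 := h2 ▸ Set.mem_univ _
    refine ⟨B, hB, ?_⟩
    by_contra hh
    rw [hp B hB] at hq
    simp only [ball, Set.mem_ofPred_eq, d, if_neg (not_or.1 hh).1, if_neg (not_or.1 hh).2, dw,
      min_le_iff] at hq
    have := dv0 (p B hB) v
    rcases hq with hq | hq
    · have := e1 ⟨B, hB⟩ (show dv (p B hB) u ≤ 1 / 2 by linarith)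
      linarith
    · linarith
  have nr : ∀ B hB, ∃ w, dv (p B hB) w ≤ 1 / 2 := fun B hB => by
    rcases le_total (p B hB).t (1 / 2) with h | h
    · exact ⟨(p B hB).u, (min_le_left _ _).trans (by simpa using h)⟩
    · exact ⟨(p B hB).v, (min_le_right _ _).trans (by simp only [SimpleGraph.dist_self]; push_cast; linarith)⟩
  have ex : ∀ x, ∃ y, Rel x y := fun ⟨u, v⟩ => by
    by_cases uv : u = v
    · exact ⟨.inl u, by simp [Rel, uv]⟩
    have fn : (∃ B hB, ((p B hB).u = u ∧ (p B hB).v = v) ∨ ((p B hB).u = v ∧ (p B hB).v = u)) →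
        ∃ y, Rel (u, v) y := fun ⟨B, hB, h⟩ => by
      obtain ⟨w, hw⟩ := nr B hB
      rcases h with h | h
      · exact ⟨.inr (.inr (w, f B, true)), B, hB, rfl, hw, by simp [h]⟩
      · exact ⟨.inr (.inr (w, f B, false)), B, hB, rfl, hw, by simp [h]⟩
    by_cases a : ∃ B hB, dv (p B hB) u = 0
    · by_cases b : ∃ B hB, dv (p B hB) v = 0
      · obtain ⟨B, hB, a⟩ := a
        obtain ⟨B', hB', b⟩ := b
        exact ⟨.inr (.inl (f B, f B')), ⟨B, hB, rfl, a⟩, B', hB', rfl, b⟩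
      · obtain ⟨B, hB, h⟩ := on v u (Ne.symm uv) b
        exact fn ⟨B, hB, h.symm⟩
    · exact fn (on u v uv a)
  choose g hg using ex
  have un : ∀ y x x', Rel x y → Rel x' y → x = x' := by
    rintro (w | ⟨i, j⟩ | ⟨w, j, b⟩) x x' a b
    · exact a.trans b.symm
    · obtain ⟨⟨B1, m1, e1, a1⟩, B2, m2, e2, a2⟩ := a
      obtain ⟨⟨B3, m3, e3, a3⟩, B4, m4, e4, a4⟩ := b
      exact Prod.ext (k3 _ _ _ _ _ _ (e1.trans e3.symm) a1 a3) (k3 _ _ _ _ _ _ (e2.trans e4.symm) a2 a4)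
    · obtain ⟨B1, m1, e1, a1, rfl⟩ := a
      obtain ⟨B2, m2, e2, a2, rfl⟩ := b
      obtain rfl := k2 _ _ _ _ w (e1.trans e2.symm) a1 a2
      rfl
  simpa using Fintype.card_le_of_injective g fun x x' e => un _ _ _ (hg x) (e ▸ hg x')

theorem result : (∀ n c : ℕ, Colourable (⊤ : SimpleGraph (Fin n)) (1 / 2) c →
      n * n ≤ n + c * c + 2 * n * c) ∧ chi (⊤ : SimpleGraph (Fin 11)) (1 / 2) = 5 ∧
    ¬ ∀ n : ℕ, chi (⊤ : SimpleGraph (Fin n)) (1 / 2) = (n + 1) / 2 := by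
  have h : Colourable (⊤ : SimpleGraph (Fin 11)) (1 / 2) 5 := by
    refine ⟨Set.range fun x => ball (cen x) (1 / 2),
      fun B => if h : ∃ x, ball (cen x) (1 / 2) = B then h.choose.1.1 else 0,
      fun B ⟨x, hx⟩ => ⟨_, hx.symm⟩, Set.eq_univ_of_forall fun q => ?_, fun B hB B' hB' hne ⟨q, h1, h2⟩ => ?_⟩
    · obtain ⟨i, j, h1, h2, h3⟩ := hc q.u q.v q.adj.ne
      have h3 : (24 : ℝ) ≤ R i q.u q.v + R j q.v q.u := by exact_mod_cast h3
      rcases le_total (24 * q.t) (R i q.u q.v) with h | h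
      · exact ⟨_, ⟨⟨(i, q.u), h1⟩, rfl⟩, (mem_cen _ _).2 (Or.inl ⟨rfl, h⟩)⟩
      · exact ⟨_, ⟨⟨(j, q.v), h2⟩, rfl⟩, (mem_cen _ _).2 (Or.inr ⟨rfl, by linarith⟩)⟩
    · have hB : ∃ x, ball (cen x) (1 / 2) = B := hB
      have hB' : ∃ x, ball (cen x) (1 / 2) = B' := hB'
      simp only [dif_pos hB, dif_pos hB']
      have e1 := hB.choose_spec
      have e2 := hB'.choose_spec
      generalize hB.choose = x at *
      generalize hB'.choose = y at *
      intro e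
      obtain ⟨⟨i, w⟩, hx⟩ := x
      obtain ⟨⟨j, z⟩, hy⟩ := y
      obtain rfl : i = j := e
      have hw : w ≠ z := by
        rintro rfl
        exact hne (e1.symm.trans e2)
      have h3 : (R i w z + R i z w : ℝ) < 24 := by exact_mod_cast hd i w z hw hx hy
      rw [← e1, mem_cen] at h1
      rw [← e2, mem_cen] at h2
      rcases h1 with ⟨a1, a2⟩ | ⟨a1, a2⟩ <;> rcases h2 with ⟨b1, b2⟩ | ⟨b1, b2⟩
      · exact hw (a1.trans b1.symm)
      · simp only [← a1, ← b1] at a2 b2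
        linarith
      · simp only [← a1, ← b1] at a2 b2
        linarith
      · exact hw (a1.trans b1.symm)
  have h5 : chi (⊤ : SimpleGraph (Fin 11)) (1 / 2) = 5 := by
    refine (Nat.sInf_le h).antisymm (le_csInf ⟨5, h⟩ fun c hc => ?_)
    have := lower 11 c hc
    by_contra hh
    have : c ≤ 4 := by omega
    nlinarith
  refine ⟨fun n c h => by linarith [lower n c h], h5, fun h' => ?_⟩
  have := h' 11
  omega

end Pool.Agent.Results.MP_4befb3_co.Both
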